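import Pool.Agent.Helper40_Dio.FStmt

/-! # DIO, Part F, module PS2 -/

set_option autoImplicit false

namespace Pool.Agent.DIO.H41

open Pool.Agent.DIO

/-- Sizes in the main case. -/
theorem main_sizes {a b c r s t g u v w Y : ℕ} (hab : a < b) (h : NEd a b c r s t g u v w)
    (hY : 100 ≤ Y) (h1 : Y ^ 420 < a * g) (h2 : Y ^ 420 < a * b) :
    4 * (a * Y ^ 3) < c ∧ 4 * (b * Y ^ 3) < c ∧ 4 * (g * Y ^ 3) < c ∧ s * Y ^ 3 < c := by
  have hY1 : 1 ≤ Y := by omega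
  have h36 : Y ^ 3 ≤ Y ^ 6 := Nat.pow_le_pow_right hY1 (by norm_num)
  have h6 : Y ^ 6 ≤ Y ^ 420 := Nat.pow_le_pow_right hY1 (by norm_num)
  have hag : Y ^ 6 < a * g := lt_of_le_of_lt h6 h1
  have hab6 : Y ^ 6 < a * b := lt_of_le_of_lt h6 h2
  have hc := h.c_gt
  have hb6 : 4 * (b * Y ^ 6) < c := by
    have : b * Y ^ 6 ≤ b * (a * g) := Nat.mul_le_mul_left b hag.le
    have e : a * b * g = b * (a * g) := by ring
    rw [e] at hc
    omega
  have hg6 : 4 * (g * Y ^ 6) < c := by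
    have : g * Y ^ 6 ≤ g * (a * b) := Nat.mul_le_mul_left g hab6.le
    have e : a * b * g = g * (a * b) := by ring
    rw [e] at hc
    omega
  have ha6 : 4 * (a * Y ^ 6) < c := by
    have : a * Y ^ 6 ≤ b * Y ^ 6 := Nat.mul_le_mul_right _ hab.le
    omega
  have k1 : a * Y ^ 3 ≤ a * Y ^ 6 := Nat.mul_le_mul_left a h36
  have k2 : b * Y ^ 3 ≤ b * Y ^ 6 := Nat.mul_le_mul_left b h36
  have k3 : g * Y ^ 3 ≤ g * Y ^ 6 := Nat.mul_le_mul_left g h36
  refine ⟨by omega, by omega, by omega, ?_⟩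
  have hcpos : 0 < c := by omega
  have hs := h.hs
  have hac : 1 ≤ a * c := Nat.mul_pos h.ha hcpos
  have hsq : (s * Y ^ 3) * (s * Y ^ 3) < c * c := by
    have e1 : (s * Y ^ 3) * (s * Y ^ 3) = (s * s) * Y ^ 6 := by ring
    have e2 : (a * c + 1) * Y ^ 6 ≤ (2 * (a * Y ^ 6)) * c := by
      calc (a * c + 1) * Y ^ 6 ≤ (2 * (a * c)) * Y ^ 6 := Nat.mul_le_mul_right _ (by omega)
        _ = (2 * (a * Y ^ 6)) * c := by ring
    have e3 : (2 * (a * Y ^ 6)) * c < c * c := Nat.mul_lt_mul_of_pos_right (by omega) hcpos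
    rw [e1, hs]
    omega
  exact Nat.mul_self_lt_mul_self_iff.1 hsq

theorem ps2 : Ps2Statement := by
  intro a b c r s t g u v w ε μ ν Y hab h hε hν hY hμY hνY hneg hdvd hag habY
  obtain ⟨sa, sb, sg, ss⟩ := main_sizes hab h hY hag habY
  have hY1 : 1 ≤ Y := by omega
  have hY3 : Y ^ 3 = Y * (Y * Y) := by ring
  have hYY : 100 * Y ≤ Y * Y := Nat.mul_le_mul_right Y hY
  have hYYY : 100 * (Y * Y) ≤ Y * (Y * Y) := Nat.mul_le_mul_right _ hY
  -- the four terms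
  have t1 : 4 * (2 * a * μ * (μ + 1)) < c := by
    have e1 : μ * (μ + 1) ≤ Y * (Y + 1) := Nat.mul_le_mul hμY (by omega)
    have e2 : 2 * (Y * (Y + 1)) ≤ Y ^ 3 := by
      rw [hY3]
      have : Y * (Y + 1) = Y * Y + Y := by ring
      omega
    calc 4 * (2 * a * μ * (μ + 1)) = 4 * (a * (2 * (μ * (μ + 1)))) := by ring
      _ ≤ 4 * (a * Y ^ 3) :=
          Nat.mul_le_mul_left 4 (Nat.mul_le_mul_left a (by omega))
      _ < c := sa
  have t2 : 4 * (s * (2 * μ + 1)) < c := by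
    have e2 : 4 * (2 * μ + 1) ≤ Y ^ 3 := by
      rw [hY3]
      omega
    calc 4 * (s * (2 * μ + 1)) = s * (4 * (2 * μ + 1)) := by ring
      _ ≤ s * Y ^ 3 := Nat.mul_le_mul_left s e2
      _ < c := ss
  have t3 : 4 * (2 * b * ν ^ 2) < c := by
    have e1 : ν ^ 2 ≤ Y ^ 2 := Nat.pow_le_pow_left hνY 2
    have e2 : 2 * ν ^ 2 ≤ Y ^ 3 := by
      rw [hY3]
      have : Y ^ 2 = Y * Y := by ring
      omega
    calc 4 * (2 * b * ν ^ 2) = 4 * (b * (2 * ν ^ 2)) := by ring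
      _ ≤ 4 * (b * Y ^ 3) := Nat.mul_le_mul_left 4 (Nat.mul_le_mul_left b e2)
      _ < c := sb
  have t4 : 4 * ((a + b + g) * ν) < c := by
    have e2 : 4 * ν ≤ Y ^ 3 := by
      rw [hY3]
      omega
    have f1 : a * (4 * ν) ≤ a * Y ^ 3 := Nat.mul_le_mul_left a e2
    have f2 : b * (4 * ν) ≤ b * Y ^ 3 := Nat.mul_le_mul_left b e2
    have f3 : g * (4 * ν) ≤ g * Y ^ 3 := Nat.mul_le_mul_left g e2
    have e3 : 4 * ((a + b + g) * ν) = a * (4 * ν) + b * (4 * ν) + g * (4 * ν) := by ring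
    omega
  -- the relation is exact
  have t1' : 4 * (2 * (a : ℤ) * μ * (μ + 1)) < c := by exact_mod_cast t1
  have t2' : 4 * ((s : ℤ) * (2 * μ + 1)) < c := by exact_mod_cast t2
  have t3' : 4 * (2 * (b : ℤ) * (ν : ℤ) ^ 2) < c := by exact_mod_cast t3
  have t4' : 4 * (((a : ℤ) + b + g) * ν) < c := by exact_mod_cast t4
  have n1 : 0 ≤ 2 * (a : ℤ) * μ * (μ + 1) := by positivity
  have n2 : 0 ≤ (s : ℤ) * (2 * μ + 1) := by positivity
  have n3 : 0 ≤ 2 * (b : ℤ) * (ν : ℤ) ^ 2 := by positivity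
  have n4 : 0 ≤ ((a : ℤ) + b) * ν := by positivity
  have n5 : 0 ≤ (g : ℤ) * ν := by positivity
  have hzero : relS a b g s ε μ ν = 0 := by
    apply Int.eq_zero_of_abs_lt_dvd hdvd
    rw [abs_lt]
    have e4 : ((a : ℤ) + b + g) * ν = ((a : ℤ) + b) * ν + (g : ℤ) * ν := by ring
    rw [e4] at t4'
    rcases hε with rfl | rfl
    · have e5 : relS a b g s 1 μ ν = 2 * (a : ℤ) * μ * (μ + 1) + (s : ℤ) * (2 * μ + 1) -
          2 * (b : ℤ) * (ν : ℤ) ^ 2 - (((a : ℤ) + b) * ν - (g : ℤ) * ν) := by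
        unfold relS
        ring
      rw [e5]
      constructor <;> linarith
    · have e5 : relS a b g s (-1) μ ν = -(2 * (a : ℤ) * μ * (μ + 1)) + (s : ℤ) * (2 * μ + 1) +
          2 * (b : ℤ) * (ν : ℤ) ^ 2 - (((a : ℤ) + b) * ν - (g : ℤ) * ν) := by
        unfold relS
        ring
      rw [e5]
      constructor <;> linarith
  refine ⟨?_, hzero⟩
  rcases hε with rfl | rfl
  · rfl
  · exfalso
    obtain ⟨hn1, hn2⟩ := hneg rfl
    have e5 : relS a b g s (-1) μ ν = -(2 * (a : ℤ) * μ * (μ + 1)) + (s : ℤ) * (2 * μ + 1) +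
        2 * (b : ℤ) * (ν : ℤ) ^ 2 - (((a : ℤ) + b) * ν - (g : ℤ) * ν) := by
      unfold relS
      ring
    rw [e5] at hzero
    have hn1' : (a : ℤ) * (2 * μ + 1) ^ 2 ≤ 4 * (b * (ν : ℤ) ^ 2) := by exact_mod_cast hn1
    have hapos : (0 : ℤ) < a := by exact_mod_cast h.ha
    have hspos : 0 < s := by
      rcases Nat.eq_zero_or_pos s with h0 | h0
      · have := h.hs
        rw [h0] at this
        omega
      · exact h0
    have hspos' : (1 : ℤ) ≤ s := by exact_mod_cast hspos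
    have hνZ : (1 : ℤ) ≤ ν := by exact_mod_cast hν
    have hbr : 2 * (a : ℤ) * μ * (μ + 1) ≤ 2 * (b : ℤ) * (ν : ℤ) ^ 2 := by nlinarith
    have hs2 : (s : ℤ) ≤ (s : ℤ) * (2 * μ + 1) := by
      have : (0 : ℤ) ≤ μ := by positivity
      nlinarith
    by_cases h4 : 4 * a ≤ b
    · have hn2' : 2 * ((a : ℤ) * (2 * μ + 1) ^ 2) ≤ 3 * (b * (ν : ℤ) ^ 2) := by
        exact_mod_cast hn2 h4
      have h4' : 4 * (a : ℤ) ≤ b := by exact_mod_cast h4
      have hbpos : (0 : ℤ) < b := by linarith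
      -- bracket at least (5/4) b nu
      have k1 : 4 * (2 * (a : ℤ) * μ * (μ + 1)) ≤ 3 * (b * (ν : ℤ) ^ 2) := by nlinarith
      have k2 : (b : ℤ) * ν ≤ b * (ν : ℤ) ^ 2 := by nlinarith
      have k3 : 4 * (((a : ℤ) + b) * ν) ≤ 5 * (b * ν) := by nlinarith
      nlinarith
    · push Not at h4
      have h4' : (b : ℤ) < 4 * a := by exact_mod_cast h4
      -- s ≤ (a + b) ν ≤ 2 b Y
      have k1 : (s : ℤ) ≤ ((a : ℤ) + b) * ν := by linarith
      have hab' : (a : ℤ) < b := by exact_mod_cast hab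
      have hνY' : (ν : ℤ) ≤ Y := by exact_mod_cast hνY
      have hYZ : (100 : ℤ) ≤ Y := by exact_mod_cast hY
      have k2 : (s : ℤ) ≤ 2 * b * Y := by
        calc (s : ℤ) ≤ ((a : ℤ) + b) * ν := k1
          _ ≤ (2 * b) * Y := by
              apply mul_le_mul (by linarith) hνY' (by linarith) (by linarith)
          _ = 2 * b * Y := by ring
      have k3 : (s : ℤ) * s ≤ (2 * b * Y) * (2 * b * Y) :=
        mul_le_mul k2 k2 (by linarith) (by positivity)
      have hs' : (s : ℤ) * s = a * c + 1 := by exact_mod_cast h.hs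
      have hc' : 4 * ((a : ℤ) * b * g) < c := by exact_mod_cast h.c_gt
      have k4 : 4 * ((a : ℤ) * a * b * g) < (2 * b * Y) * (2 * b * Y) := by
        calc 4 * ((a : ℤ) * a * b * g) = a * (4 * ((a : ℤ) * b * g)) := by ring
          _ < a * c + 1 := by nlinarith
          _ = (s : ℤ) * s := hs'.symm
          _ ≤ _ := k3
      have hbpos : (0 : ℤ) < b := by linarith
      have k5 : (a : ℤ) * a * g < b * (Y * Y) := by
        by_contra hcon
        push Not at hcon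
        have : 4 * b * (b * (Y * Y)) ≤ 4 * b * ((a : ℤ) * a * g) :=
          mul_le_mul_of_nonneg_left hcon (by linarith)
        nlinarith
      have k6 : (a : ℤ) * (a * g) < a * (4 * (Y * Y)) := by
        calc (a : ℤ) * (a * g) = (a : ℤ) * a * g := by ring
          _ < b * (Y * Y) := k5
          _ ≤ (4 * a) * (Y * Y) := mul_le_mul_of_nonneg_right h4'.le (by positivity)
          _ = a * (4 * (Y * Y)) := by ring
      have k7 : (a : ℤ) * g < 4 * (Y * Y) := lt_of_mul_lt_mul_left k6 hapos.le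
      have k8 : a * g < 4 * (Y * Y) := by exact_mod_cast k7
      have k9 : 4 * (Y * Y) ≤ Y ^ 420 := by
        calc 4 * (Y * Y) ≤ Y * (Y * Y) := Nat.mul_le_mul_right _ (by omega)
          _ = Y ^ 3 := hY3.symm
          _ ≤ Y ^ 420 := Nat.pow_le_pow_right hY1 (by norm_num)
      omega

end Pool.Agent.DIO.H41
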