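import Pool.Agent.Helper40_Dio.FStmt

/-! # DIO, Part F, module PS4 -/

set_option autoImplicit false

namespace Pool.Agent.DIO.H41

open Pool.Agent.DIO

/-- The final contradiction: `b P + 2 σ r Q + S = 0` with small coefficients. -/
theorem no_rel {a b r Y : ℕ} {P Q S σ : ℤ} (hY : 100 ≤ Y) (ha : a ≤ 4 * Y ^ 2)
    (hr : r * r = a * b + 1) (hab : Y ^ 20 < a * b) (hσ : σ = 1 ∨ σ = -1) (hQ : 1 ≤ Q)
    (hQ' : Q ≤ 17 * (Y : ℤ) ^ 3) (hS0 : 0 ≤ S) (hS : S ≤ 33 * (Y : ℤ) ^ 4)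
    (h : (b : ℤ) * P + 2 * σ * r * Q + S = 0) : False := by
  have hYZ : (100 : ℤ) ≤ Y := by exact_mod_cast hY
  have hY0 : (0 : ℤ) < Y := by linarith
  have haZ : (a : ℤ) ≤ 4 * (Y : ℤ) ^ 2 := by exact_mod_cast ha
  have hrZ : (r : ℤ) * r = a * b + 1 := by exact_mod_cast hr
  have habZ : (Y : ℤ) ^ 20 < a * b := by exact_mod_cast hab
  have hr0 : (0 : ℤ) ≤ r := by positivity
  have hb0 : (0 : ℤ) ≤ b := by positivity
  -- `r` is large
  have hr10 : (Y : ℤ) ^ 10 < r := by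
    by_contra hcon
    push Not at hcon
    have : (r : ℤ) * r ≤ (Y : ℤ) ^ 10 * (Y : ℤ) ^ 10 := mul_le_mul hcon hcon hr0 (by positivity)
    have e : (Y : ℤ) ^ 10 * (Y : ℤ) ^ 10 = (Y : ℤ) ^ 20 := by ring
    linarith
  have hSr : S < r := by
    have : 33 * (Y : ℤ) ^ 4 ≤ (Y : ℤ) ^ 10 := by
      have h1 : (33 : ℤ) ≤ (Y : ℤ) ^ 6 := by
        calc (33 : ℤ) ≤ Y := by linarith
          _ = (Y : ℤ) ^ 1 := (pow_one _).symm
          _ ≤ (Y : ℤ) ^ 6 := pow_le_pow_right₀ (by linarith) (by norm_num)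
      calc 33 * (Y : ℤ) ^ 4 ≤ (Y : ℤ) ^ 6 * (Y : ℤ) ^ 4 :=
            mul_le_mul_of_nonneg_right h1 (by positivity)
        _ = (Y : ℤ) ^ 10 := by ring
    linarith
  have hrQ : (r : ℤ) ≤ r * Q := le_mul_of_one_le_right hr0 hQ
  -- `P ≠ 0`
  have hP : P ≠ 0 := by
    rintro rfl
    rcases hσ with rfl | rfl
    · nlinarith
    · nlinarith
  have hP1 : 1 ≤ |P| := Int.one_le_abs hP
  -- `b ≤ 35 Y^3 r`
  have hb1 : (b : ℤ) ≤ 35 * (Y : ℤ) ^ 3 * r := by
    have h1 : (b : ℤ) ≤ |(b : ℤ) * P| := by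
      rw [abs_mul, abs_of_nonneg hb0]
      exact le_mul_of_one_le_right hb0 hP1
    have h2 : (b : ℤ) * P = -(2 * σ * r * Q + S) := by linarith
    have h3 : |(b : ℤ) * P| ≤ 2 * r * Q + S := by
      rw [h2, abs_neg]
      have hrQ0 : 0 ≤ (r : ℤ) * Q := by positivity
      rcases hσ with rfl | rfl
      · rw [abs_le]
        constructor <;> nlinarith
      · rw [abs_le]
        constructor <;> nlinarith
    have h4 : 2 * (r : ℤ) * Q ≤ 2 * r * (17 * (Y : ℤ) ^ 3) :=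
      mul_le_mul_of_nonneg_left hQ' (by positivity)
    have h5 : (r : ℤ) ≤ (Y : ℤ) ^ 3 * r := by
      apply le_mul_of_one_le_left hr0
      exact one_le_pow₀ (by linarith)
    linarith
  -- square it
  have hb2 : (b : ℤ) * b ≤ (35 * (Y : ℤ) ^ 3 * r) * (35 * (Y : ℤ) ^ 3 * r) :=
    mul_le_mul hb1 hb1 hb0 (by positivity)
  have hbpos : (0 : ℤ) < b := by
    rcases hb0.lt_or_eq with h0 | h0
    · exact h0
    · rw [← h0] at habZ
      have : (0 : ℤ) < (Y : ℤ) ^ 20 := by positivity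
      linarith
  have h6 : (35 * (Y : ℤ) ^ 3 * r) * (35 * (Y : ℤ) ^ 3 * r) =
      1225 * (Y : ℤ) ^ 6 * (a * b + 1) := by
    rw [← hrZ]
    ring
  have h7 : (a : ℤ) * b + 1 ≤ 5 * (Y : ℤ) ^ 2 * b := by
    have h8 : (a : ℤ) * b ≤ 4 * (Y : ℤ) ^ 2 * b := mul_le_mul_of_nonneg_right haZ hb0
    have h9 : (1 : ℤ) ≤ (Y : ℤ) ^ 2 * b := by
      have : (0 : ℤ) < (Y : ℤ) ^ 2 * b := by positivity
      linarith
    linarith
  have h8 : (b : ℤ) * b ≤ (6125 * (Y : ℤ) ^ 8) * b := by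
    calc (b : ℤ) * b ≤ 1225 * (Y : ℤ) ^ 6 * (a * b + 1) := by rw [← h6]; exact hb2
      _ ≤ 1225 * (Y : ℤ) ^ 6 * (5 * (Y : ℤ) ^ 2 * b) :=
          mul_le_mul_of_nonneg_left h7 (by positivity)
      _ = (6125 * (Y : ℤ) ^ 8) * b := by ring
  have h9 : (b : ℤ) ≤ 6125 * (Y : ℤ) ^ 8 := le_of_mul_le_mul_right h8 hbpos
  have h10 : (a : ℤ) * b ≤ (4 * (Y : ℤ) ^ 2) * (6125 * (Y : ℤ) ^ 8) :=
    mul_le_mul haZ h9 hb0 (by positivity)
  have h11 : (4 * (Y : ℤ) ^ 2) * (6125 * (Y : ℤ) ^ 8) ≤ (Y : ℤ) ^ 20 := by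
    have h12 : (24500 : ℤ) ≤ (Y : ℤ) ^ 10 := by
      calc (24500 : ℤ) ≤ 100 ^ 10 := by norm_num
        _ ≤ (Y : ℤ) ^ 10 := pow_le_pow_left₀ (by norm_num) hYZ 10
    calc (4 * (Y : ℤ) ^ 2) * (6125 * (Y : ℤ) ^ 8) = 24500 * (Y : ℤ) ^ 10 := by ring
      _ ≤ (Y : ℤ) ^ 10 * (Y : ℤ) ^ 10 := mul_le_mul_of_nonneg_right h12 (by positivity)
      _ = (Y : ℤ) ^ 20 := by ring
  linarith

theorem ps4 : Ps4Statement := by
  intro a b c r s t g u v w μ ν Y hab h hν hY hνY hμν hrel habY hag hE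
  have hY1 : 1 ≤ Y := by omega
  have hapos := h.ha
  have hbpos := h.hb
  have hgpos := h.hg
  have hr := h.hr
  have hu := h.hu
  have hv := h.hv
  have hab20 : Y ^ 20 < a * b :=
    lt_of_le_of_lt (Nat.pow_le_pow_right hY1 (by norm_num)) habY
  have hY4 : Y ^ 4 = Y ^ 2 * Y ^ 2 := by ring
  -- `a` is small
  have ha : a ≤ 4 * Y ^ 2 := by
    by_contra hcon
    push Not at hcon
    have hsq : 16 * Y ^ 4 < a ^ 2 := by
      calc 16 * Y ^ 4 = (4 * Y ^ 2) ^ 2 := by ring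
        _ < a ^ 2 := Nat.pow_lt_pow_left hcon (by norm_num)
    have key : ∀ m : ℕ, b ≤ 4 * m → a ^ 2 * g ≤ 16 * (m * Y ^ 4) := by
      intro m hm
      calc a ^ 2 * g ≤ 4 * b * Y ^ 4 := hag
        _ ≤ 4 * (4 * m) * Y ^ 4 := Nat.mul_le_mul_right _ (Nat.mul_le_mul_left 4 hm)
        _ = 16 * (m * Y ^ 4) := by ring
    have hkg : ¬ b ≤ 4 * g := by
      intro hb
      have h1 := key g hb
      have h2 : 16 * Y ^ 4 * g < a ^ 2 * g := Nat.mul_lt_mul_of_pos_right hsq hgpos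
      have h3 : 16 * (g * Y ^ 4) = 16 * Y ^ 4 * g := by ring
      omega
    rcases hE with hE | hE
    · exact hkg (by omega)
    · have hga : g < a := by
        by_contra hga
        push Not at hga
        apply hkg
        have hug : u ≤ g := by
          by_contra hug
          push Not at hug
          have h1 : (g + 1) * (g + 1) ≤ u * u := Nat.mul_le_mul hug hug
          have h2 : a * g ≤ g * g := Nat.mul_le_mul_right g hga
          nlinarith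
        omega
      have hua : u ≤ a := by
        by_contra hua
        push Not at hua
        have h1 : (a + 1) * (a + 1) ≤ u * u := Nat.mul_le_mul hua hua
        have h2 : a * g ≤ a * a := Nat.mul_le_mul_left a hga.le
        nlinarith
      have hb4 : b ≤ 4 * a := by omega
      have h1 := key a hb4
      -- a * g ≤ 16 Y^4, so a ≤ 16 Y^4
      have h2 : a * (a * g) ≤ a * (16 * Y ^ 4) := by
        calc a * (a * g) = a ^ 2 * g := by ring
          _ ≤ 16 * (a * Y ^ 4) := h1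
          _ = a * (16 * Y ^ 4) := by ring
      have h3 : a * g ≤ 16 * Y ^ 4 := Nat.le_of_mul_le_mul_left h2 hapos
      have h4 : a ≤ a * g := Nat.le_mul_of_pos_right a hgpos
      have h5 : a * b ≤ (16 * Y ^ 4) * (4 * (16 * Y ^ 4)) :=
        Nat.mul_le_mul (h4.trans h3) (hb4.trans (Nat.mul_le_mul_left 4 (h4.trans h3)))
      have h6 : (16 * Y ^ 4) * (4 * (16 * Y ^ 4)) ≤ Y ^ 20 := by
        have h7 : 1024 ≤ Y ^ 12 := by
          calc 1024 ≤ 100 ^ 12 := by norm_num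
            _ ≤ Y ^ 12 := Nat.pow_le_pow_left hY 12
        calc (16 * Y ^ 4) * (4 * (16 * Y ^ 4)) = 1024 * Y ^ 8 := by ring
          _ ≤ Y ^ 12 * Y ^ 8 := Nat.mul_le_mul_right _ h7
          _ = Y ^ 20 := by ring
      omega
  -- the formulas
  have hform : ∃ σ : ℤ, (σ = 1 ∨ σ = -1) ∧ (g : ℤ) = a + b + 2 * σ * r ∧
      (s : ℤ) = 2 * a * b + 1 + 2 * σ * a * r := by
    have hrZ : (r : ℤ) * r = a * b + 1 := by exact_mod_cast hr
    have huZ : (u : ℤ) * u = a * g + 1 := by exact_mod_cast hu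
    have hvZ : (v : ℤ) * v = b * g + 1 := by exact_mod_cast hv
    have hsZ : (s : ℤ) = a * v + r * u := by exact_mod_cast h.s_eq
    have hr0 : (0 : ℤ) ≤ r := by positivity
    have hu0 : (0 : ℤ) ≤ u := by positivity
    have hv0 : (0 : ℤ) ≤ v := by positivity
    have ha0 : (0 : ℤ) < a := by exact_mod_cast hapos
    have hb0 : (0 : ℤ) < b := by exact_mod_cast hbpos
    have hg0 : (0 : ℤ) < g := by exact_mod_cast hgpos
    have sq_eq : ∀ x y : ℤ, 0 ≤ x → 0 ≤ y → x * x = y * y → x = y := by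
      intro x y hx hy hxy
      have h1 : (x - y) * (x + y) = 0 := by ring_nf; nlinarith
      rcases mul_eq_zero.1 h1 with h2 | h2
      · linarith
      · have : x = 0 := by linarith
        have : y = 0 := by linarith
        linarith
    rcases hE with hE | hE
    · have hEZ : (g : ℤ) = a + b + 2 * r := by exact_mod_cast hE
      have hu' : (u : ℤ) = r + a := by
        apply sq_eq _ _ hu0 (by linarith)
        rw [huZ, hEZ]
        linear_combination -hrZ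
      have hv' : (v : ℤ) = b + r := by
        apply sq_eq _ _ hv0 (by linarith)
        rw [hvZ, hEZ]
        linear_combination -hrZ
      refine ⟨1, Or.inl rfl, by rw [hEZ]; ring, ?_⟩
      rw [hsZ, hu', hv']
      linear_combination hrZ
    · have hEZ : (b : ℤ) = a + g + 2 * u := by exact_mod_cast hE
      have hr' : (r : ℤ) = a + u := by
        apply sq_eq _ _ hr0 (by linarith)
        rw [hrZ, hEZ]
        linear_combination -huZ
      have hv' : (v : ℤ) = g + u := by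
        apply sq_eq _ _ hv0 (by linarith)
        rw [hvZ, hEZ]
        linear_combination -huZ
      refine ⟨-1, Or.inr rfl, by rw [hr', hEZ]; ring, ?_⟩
      rw [hsZ, hv', hr', hEZ]
      linear_combination huZ
  obtain ⟨σ, hσ, hg, hs⟩ := hform
  -- the relation
  have hrel' : (b : ℤ) * (2 * a * (2 * μ + 1) - 2 * (ν : ℤ) ^ 2) +
      2 * σ * r * (a * (2 * μ + 1) + ν) + (2 * μ + 1 + 2 * a * μ * (μ + 1)) = 0 := by
    unfold relS at hrel
    rw [hg, hs] at hrel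
    linear_combination hrel
  have hYZ : (100 : ℤ) ≤ Y := by exact_mod_cast hY
  have haZ : (a : ℤ) ≤ 4 * (Y : ℤ) ^ 2 := by exact_mod_cast ha
  have ha0 : (0 : ℤ) < a := by exact_mod_cast hapos
  have hνZ : (1 : ℤ) ≤ ν := by exact_mod_cast hν
  have hνYZ : (ν : ℤ) ≤ Y := by exact_mod_cast hνY
  have hμ0 : (0 : ℤ) ≤ μ := by positivity
  have hμZ : (μ : ℤ) + 1 ≤ 2 * Y := by
    have : μ + 1 ≤ 2 * Y := by omega
    exact_mod_cast this
  refine no_rel (Q := a * (2 * μ + 1) + ν) (S := 2 * μ + 1 + 2 * a * μ * (μ + 1)) hY ha hr hab20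
    hσ ?_ ?_ ?_ ?_ hrel'
  · have : 0 ≤ (a : ℤ) * (2 * μ + 1) := by positivity
    linarith
  · have h1 : (a : ℤ) * (2 * μ + 1) ≤ (4 * (Y : ℤ) ^ 2) * (4 * Y) :=
      mul_le_mul haZ (by linarith) (by positivity) (by positivity)
    have h2 : (Y : ℤ) ≤ (Y : ℤ) ^ 3 := by
      calc (Y : ℤ) = (Y : ℤ) ^ 1 := (pow_one _).symm
        _ ≤ (Y : ℤ) ^ 3 := pow_le_pow_right₀ (by linarith) (by norm_num)
    calc (a : ℤ) * (2 * μ + 1) + ν ≤ (4 * (Y : ℤ) ^ 2) * (4 * Y) + (Y : ℤ) ^ 3 := by linarith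
      _ = 17 * (Y : ℤ) ^ 3 := by ring
  · positivity
  · have h1 : (μ : ℤ) * (μ + 1) ≤ (2 * Y) * (2 * Y) :=
      mul_le_mul (by linarith) hμZ (by linarith) (by linarith)
    have h2 : (a : ℤ) * (μ * (μ + 1)) ≤ (4 * (Y : ℤ) ^ 2) * ((2 * Y) * (2 * Y)) :=
      mul_le_mul haZ h1 (by positivity) (by positivity)
    have h3 : 2 * (μ : ℤ) + 1 ≤ (Y : ℤ) ^ 4 := by
      have : (4 : ℤ) * Y ≤ (Y : ℤ) ^ 4 := by
        calc (4 : ℤ) * Y ≤ Y * Y := by nlinarith
          _ = (Y : ℤ) ^ 2 := by ring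
          _ ≤ (Y : ℤ) ^ 4 := pow_le_pow_right₀ (by linarith) (by norm_num)
      linarith
    calc 2 * (μ : ℤ) + 1 + 2 * a * μ * (μ + 1) = (2 * (μ : ℤ) + 1) + 2 * (a * (μ * (μ + 1))) := by
          ring
      _ ≤ (Y : ℤ) ^ 4 + 2 * ((4 * (Y : ℤ) ^ 2) * ((2 * Y) * (2 * Y))) := by linarith
      _ = 33 * (Y : ℤ) ^ 4 := by ring

end Pool.Agent.DIO.H41
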